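import Mathlib

set_option autoImplicit false
open Filter Topology Finset Complex

namespace Pool.Agent.H.MP_060e4f_an

noncomputable def w (k n : ℕ) : ℂ := ⟨4 ^ k, -(n + 1)⟩
noncomputable def c (k : ℕ) (z : ℂ) : ℂ := ∏ n ∈ range (2 ^ k), (1 + -z / w k n)
noncomputable def P (K : ℕ) (z : ℂ) : ℂ := ∏ k ∈ range K, c k z
noncomputable def F (z : ℂ) : ℂ := ∏' k, (1 + (c k z - 1))

lemma w_ge (k n : ℕ) : (4:ℝ) ^ k ≤ ‖w k n‖ := re_le_norm (w k n)
lemma w_pos (k n : ℕ) : 0 < ‖w k n‖ := lt_of_lt_of_le (by positivity) (w_ge k n)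
lemma w_ne (k n : ℕ) : w k n ≠ 0 := norm_pos_iff.1 (w_pos k n)

lemma c_diff (k : ℕ) : Differentiable ℂ (c k) := by
  unfold c
  exact Differentiable.fun_finsetProd fun n _ => by fun_prop

lemma c_sub (k : ℕ) (z : ℂ) : ‖c k z - 1‖ ≤ Real.exp (‖z‖ * (1 / 2) ^ k) - 1 := by
  refine (Finset.norm_prod_one_add_sub_one_le _ _).trans ?_
  gcongr
  refine (sum_le_card_nsmul _ _ (‖z‖ / 4 ^ k) fun n _ => ?_).trans (le_of_eq ?_)
  · rw [norm_div, norm_neg]
    gcongr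
    exact w_ge k n
  · rw [card_range, nsmul_eq_mul, show (4:ℝ) = 2 * 2 by norm_num, mul_pow, one_div_pow]
    push_cast
    field_simp

lemma c_le (k : ℕ) (z : ℂ) : ‖c k z‖ ≤ Real.exp (‖z‖ * (1 / 2) ^ k) := by
  have h := c_sub k z
  have := norm_sub_norm_le (c k z) 1
  rw [norm_one] at this
  linarith

lemma c_bound (ρ : ℝ) (k : ℕ) (z : ℂ) (hz : ‖z‖ ≤ ρ) :
    ‖c k z - 1‖ ≤ ρ * Real.exp ρ * (1 / 2) ^ k := by
  refine (c_sub k z).trans ?_
  have h0 : 0 ≤ ρ := (norm_nonneg z).trans hz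
  have h1 : (1 / 2 : ℝ) ^ k ≤ 1 := pow_le_one₀ (by norm_num) (by norm_num)
  have h2 : ‖z‖ * (1 / 2) ^ k ≤ ρ * (1 / 2) ^ k := by gcongr
  set s := ‖z‖ * (1 / 2 : ℝ) ^ k
  have h3 : s ≤ ρ := h2.trans (mul_le_of_le_one_right h0 h1)
  have h4 : Real.exp s - 1 ≤ s * Real.exp s := by
    have := Real.add_one_le_exp (-s)
    have h5 := Real.exp_pos s
    have h6 : Real.exp (-s) * Real.exp s = 1 := by rw [← Real.exp_add]; simp
    nlinarith
  refine h4.trans ?_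
  rw [mul_right_comm]
  gcongr

lemma F_loc (ρ : ℝ) : TendstoLocallyUniformlyOn P F atTop (Metric.ball 0 ρ) := by
  have := (Summable.hasProdLocallyUniformlyOn_nat_one_add (f := fun k z => c k z - 1)
    Metric.isOpen_ball (summable_geometric_two.mul_left (ρ * Real.exp ρ))
    (Eventually.of_forall fun k z hz => c_bound ρ k z (mem_ball_zero_iff.1 hz).le)
    (fun k => ((c_diff k).continuous.sub continuous_const).continuousOn)
    ).tendstoLocallyUniformlyOn_finsetRange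
  refine this.congr ?_
  intro n z _
  simp [P]

lemma P_diff (n : ℕ) : Differentiable ℂ (P n) := by
  unfold P
  exact Differentiable.fun_finsetProd fun k _ => c_diff k

lemma F_diff : Differentiable ℂ F := by
  intro z
  have h := (F_loc (‖z‖ + 1)).differentiableOn
    (Eventually.of_forall fun n => (P_diff n).differentiableOn) Metric.isOpen_ball
  exact h.differentiableAt (Metric.isOpen_ball.mem_nhds (by simp))

lemma P_tend (z : ℂ) : Tendsto (fun n => ‖P n z‖) atTop (𝓝 ‖F z‖) :=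
  ((F_loc (‖z‖ + 1)).tendsto_at (by simp)).norm

lemma fac (k n : ℕ) (z : ℂ) :
    ‖1 + -z / w k n‖ ^ 2 = ((z.re - 4 ^ k) ^ 2 + (z.im + (n + 1)) ^ 2) / ‖w k n‖ ^ 2 := by
  have : 1 + -z / w k n = (w k n - z) / w k n := by have := w_ne k n; field_simp; ring
  rw [this, norm_div, div_pow, Complex.sq_norm (w k n - z), normSq_apply]
  simp only [w, sub_re, sub_im]
  ring

lemma c_sq (k : ℕ) (z : ℂ) : ‖c k z‖ ^ 2 =
    (∏ n ∈ range (2 ^ k), ((z.re - 4 ^ k) ^ 2 + (z.im + (n + 1)) ^ 2))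
      / ∏ n ∈ range (2 ^ k), ‖w k n‖ ^ 2 := by
  rw [c, norm_prod, ← prod_pow, ← prod_div_distrib]
  exact prod_congr rfl fun n _ => fac k n z

lemma F_ne (z : ℂ) (hz : 0 ≤ z.im) : F z ≠ 0 := by
  refine tprod_one_add_ne_zero_of_summable (f := fun k => c k z - 1) ?_ ?_
  · intro k
    rw [add_sub_cancel]
    intro h
    have h1 := c_sq k z
    rw [h, norm_zero] at h1
    have h2 : 0 < (∏ n ∈ range (2 ^ k), ((z.re - 4 ^ k) ^ 2 + (z.im + (n + 1)) ^ 2))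
        / ∏ n ∈ range (2 ^ k), ‖w k n‖ ^ 2 :=
      div_pos (prod_pos fun n _ => by positivity) (prod_pos fun n _ => pow_pos (w_pos k n) 2)
    rw [← h1] at h2
    simp at h2
  · exact Summable.of_nonneg_of_le (fun _ => norm_nonneg _) (fun k => c_bound _ k z le_rfl)
      (summable_geometric_two.mul_left _)

lemma F_exp (z : ℂ) : ‖F z‖ ≤ Real.exp (2 * ‖z‖) := by
  refine le_of_tendsto' (P_tend z) fun K => ?_
  rw [P, norm_prod]
  refine (prod_le_prod (fun _ _ => norm_nonneg _) fun k _ => c_le k z).trans ?_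
  rw [← Real.exp_sum, ← mul_sum, mul_comm]
  gcongr
  exact sum_geometric_two_le K

lemma F_cmp (z z' : ℂ) (C : ℝ) (a : ℕ → ℝ) (h : ∀ k, ‖c k z‖ ≤ a k * ‖c k z'‖)
    (hC : ∀ᶠ K in atTop, ∏ k ∈ range K, a k ≤ C) : ‖F z‖ ≤ C * ‖F z'‖ := by
  refine le_of_tendsto_of_tendsto (P_tend z) ((P_tend z').const_mul C) ?_
  filter_upwards [hC] with K hK
  simp only [P, norm_prod]
  refine (prod_le_prod (fun _ _ => norm_nonneg _) fun k _ => h k).trans ?_
  rw [prod_mul_distrib]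
  exact mul_le_mul_of_nonneg_right hK (prod_nonneg fun _ _ => norm_nonneg _)

lemma c_mono (k : ℕ) (z z' : ℂ) (h1 : z.re = z'.re) (h2 : |z.im| ≤ z'.im) :
    ‖c k z‖ ≤ ‖c k z'‖ := by
  refine le_of_sq_le_sq ?_ (norm_nonneg _)
  rw [c_sq, c_sq, h1]
  apply div_le_div_of_nonneg_right _ (by positivity)
  refine prod_le_prod (fun _ _ => by positivity) fun n _ => ?_
  have : (0:ℝ) ≤ n := by positivity
  rw [abs_le] at h2
  nlinarith [h2.1, h2.2]

lemma F_conj (z : ℂ) (hz : 0 ≤ z.im) : ‖F (starRingEnd ℂ z)‖ ≤ ‖F z‖ := by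
  have := F_cmp (starRingEnd ℂ z) z 1 (fun _ => 1)
    (fun k => by rw [one_mul]; exact c_mono k _ _ (by simp) (by simp [abs_of_nonneg hz]))
    (by simp)
  simpa using this

lemma tele (σ : ℝ) (hσ : 0 ≤ σ) (N : ℕ) :
    ∑ n ∈ range N, σ / (σ ^ 2 + ((n:ℝ) + 1) ^ 2) ≤ 2 := by
  rcases hσ.eq_or_lt with rfl | hσ
  · simp
  have : ∑ n ∈ range N, σ / (σ ^ 2 + ((n:ℝ) + 1) ^ 2) ≤ 2 - 2 * σ / (σ + N) := by
    induction N with
    | zero => simp only [range_zero, sum_empty, Nat.cast_zero, add_zero]; field_simp; norm_num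
    | succ N ih =>
      rw [sum_range_succ]
      have h : σ / (σ ^ 2 + ((N:ℝ) + 1) ^ 2) ≤ 2 * σ / (σ + N) - 2 * σ / (σ + (N + 1 : ℕ)) := by
        push_cast
        rw [div_sub_div _ _ (by positivity) (by positivity),
          div_le_div_iff₀ (by positivity) (by positivity)]
        have h1 : (σ + N) * (σ + (N + 1)) ≤ 2 * (σ ^ 2 + ((N:ℝ) + 1) ^ 2) := by
          nlinarith [sq_nonneg (σ - (N + 1))]
        nlinarith
      linarith
  have h2 : 0 ≤ 2 * σ / (σ + N) := by positivity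
  linarith

noncomputable def b (k : ℕ) (t x : ℝ) : ℝ :=
  ∑ n ∈ range (2 ^ k), (2 * |t - 4 ^ k| * |x| + x ^ 2) / ((t - 4 ^ k) ^ 2 + ((n:ℝ) + 1) ^ 2)

lemma c_shift (k : ℕ) (t x : ℝ) : ‖c k (t + x)‖ ≤ Real.exp (b k t x) * ‖c k t‖ := by
  rw [b, Real.exp_sum, c, c, norm_prod, norm_prod, ← prod_mul_distrib]
  refine prod_le_prod (fun _ _ => norm_nonneg _) fun n _ => ?_
  set s := t - 4 ^ k with hs
  have hd : 0 < s ^ 2 + ((n:ℝ) + 1) ^ 2 := by positivity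
  set e := (2 * |s| * |x| + x ^ 2) / (s ^ 2 + ((n:ℝ) + 1) ^ 2) with he
  have he0 : 0 ≤ e := by positivity
  have h1 := Real.add_one_le_exp e
  refine le_of_sq_le_sq ?_ (by positivity)
  rw [mul_pow, fac, fac, ← mul_div_assoc]
  apply div_le_div_of_nonneg_right _ (by positivity)
  simp only [add_re, ofReal_re, add_im, ofReal_im, add_zero, zero_add]
  have h2 : e * (s ^ 2 + ((n:ℝ) + 1) ^ 2) = 2 * |s| * |x| + x ^ 2 := div_mul_cancel₀ _ hd.ne'
  have h3 : s * x ≤ |s| * |x| := by rw [← abs_mul]; exact le_abs_self _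
  have h4 : e + 1 ≤ Real.exp e ^ 2 := by nlinarith
  have h5 := mul_le_mul_of_nonneg_right h4 hd.le
  rw [show t + x - 4 ^ k = s + x by rw [hs]; ring, ← hs]
  nlinarith

lemma b_le1 (k : ℕ) (t x : ℝ) : b k t x ≤ 4 * |x| + 4 * x ^ 2 := by
  have h1 := tele |t - 4 ^ k| (abs_nonneg _) (2 ^ k)
  have h2 := tele 1 zero_le_one (2 ^ k)
  rw [sq_abs] at h1
  have h3 := mul_le_mul_of_nonneg_left h1 (show 0 ≤ 2 * |x| by positivity)
  have h4 := mul_le_mul_of_nonneg_left h2 (show 0 ≤ 2 * x ^ 2 by positivity)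
  refine le_trans ?_ ((add_le_add h3 h4).trans (le_of_eq (by ring)))
  rw [mul_sum, mul_sum, ← sum_add_distrib]
  refine sum_le_sum fun n _ => ?_
  rw [add_div]
  refine add_le_add (le_of_eq (by ring)) ?_
  rw [mul_one_div, div_le_div_iff₀ (by positivity) (by positivity)]
  have : (0:ℝ) ≤ n := by positivity
  have h5 : 1 ^ 2 + ((n:ℝ) + 1) ^ 2 ≤ 2 * ((t - 4 ^ k) ^ 2 + ((n:ℝ) + 1) ^ 2) := by
    nlinarith [sq_nonneg (t - 4 ^ k)]
  nlinarith [mul_le_mul_of_nonneg_left h5 (sq_nonneg x)]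

lemma b_le2 (k : ℕ) (t x : ℝ) (h : 4 ^ k / 2 ≤ |t - 4 ^ k|) :
    b k t x ≤ (4 * |x| + 4 * x ^ 2) * (1 / 2) ^ k := by
  have h4 : (1:ℝ) ≤ 4 ^ k := one_le_pow₀ (by norm_num)
  refine (sum_le_card_nsmul _ _ ((4 * |x| + 4 * x ^ 2) / 4 ^ k) fun n _ => ?_).trans (le_of_eq ?_)
  · rw [div_le_div_iff₀ (by positivity) (by positivity), ← sq_abs (t - 4 ^ k)]
    set σ := |t - 4 ^ k|
    have h1 : 4 ^ k ≤ 4 * σ ^ 2 := by nlinarith
    have h2 : σ * 4 ^ k ≤ 2 * σ ^ 2 := by nlinarith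
    have h3 := mul_le_mul_of_nonneg_left h1 (sq_nonneg x)
    have h5 := mul_le_mul_of_nonneg_left h2 (abs_nonneg x)
    have h6 : 0 ≤ (4 * |x| + 4 * x ^ 2) * ((n:ℝ) + 1) ^ 2 := by positivity
    nlinarith
  · rw [card_range, nsmul_eq_mul, show (4:ℝ) ^ k = 2 ^ k * 2 ^ k by rw [← mul_pow]; norm_num,
      one_div_pow]
    push_cast
    field_simp

lemma near (t : ℝ) : ∃ j : ℕ, ∀ k, k ≠ j → 4 ^ k / 2 ≤ |t - 4 ^ k| := by
  by_cases h : ∃ j : ℕ, |t - 4 ^ j| < 4 ^ j / 2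
  · obtain ⟨j, hj⟩ := h
    refine ⟨j, fun k hk => ?_⟩
    by_contra h2
    push Not at h2
    rw [abs_lt] at hj h2
    rcases lt_or_gt_of_ne hk with h3 | h3
    · have : (4:ℝ) ^ (k + 1) ≤ 4 ^ j := pow_le_pow_right₀ (by norm_num) h3
      rw [pow_succ] at this
      have : (0:ℝ) < 4 ^ k := by positivity
      linarith [hj.1, h2.2]
    · have : (4:ℝ) ^ (j + 1) ≤ 4 ^ k := pow_le_pow_right₀ (by norm_num) h3
      rw [pow_succ] at this
      have : (0:ℝ) < 4 ^ j := by positivity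
      linarith [hj.2, h2.1]
  · push Not at h
    exact ⟨0, fun k _ => h k⟩

lemma F_shift (t x : ℝ) : ‖F (t + x)‖ ≤ Real.exp (3 * (4 * |x| + 4 * x ^ 2)) * ‖F t‖ := by
  refine F_cmp _ _ _ _ (fun k => c_shift k t x) (Eventually.of_forall fun K => ?_)
  rw [← Real.exp_sum]
  apply Real.exp_le_exp.2
  obtain ⟨j, hj⟩ := near t
  set D := 4 * |x| + 4 * x ^ 2 with hD
  have hD0 : 0 ≤ D := by positivity
  have h1 : ∀ k ∈ range K, b k t x ≤ D * (1 / 2) ^ k + if k = j then D else 0 := by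
    intro k _
    split_ifs with h
    · have : 0 ≤ D * (1 / 2) ^ k := by positivity
      linarith [b_le1 k t x]
    · linarith [b_le2 k t x (hj k h)]
  refine (sum_le_sum h1).trans ?_
  rw [sum_add_distrib, ← mul_sum, sum_ite_eq']
  have h2 := mul_le_mul_of_nonneg_left (sum_geometric_two_le K) hD0
  split_ifs <;> linarith

lemma tele2 (s : ℝ) (L : ℕ) :
    (∏ n ∈ range L, (s ^ 2 + (2 + ((n:ℝ) + 1)) ^ 2)) * ((s ^ 2 + 1) * (s ^ 2 + 4))
      = (∏ n ∈ range L, (s ^ 2 + ((n:ℝ) + 1) ^ 2))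
        * ((s ^ 2 + (L + 1) ^ 2) * (s ^ 2 + (L + 2) ^ 2)) := by
  induction L with
  | zero => simp; norm_num
  | succ L ih =>
    rw [prod_range_succ, prod_range_succ, mul_right_comm, ih]
    push_cast
    ring

lemma F_up (j : ℕ) (t : ℝ) (h1 : 4 ^ j ≤ t) (h2 : t ≤ 4 ^ j + 1) :
    ‖F t‖ ≤ 4 / 4 ^ j * ‖F (t + 2 * I)‖ := by
  refine F_cmp _ _ _ (fun k => if k = j then 4 / 4 ^ j else 1) (fun k => ?_) ?_
  · split_ifs with h
    · subst h
      refine le_of_sq_le_sq ?_ (by positivity)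
      rw [mul_pow, c_sq, c_sq, ← mul_div_assoc]
      apply div_le_div_of_nonneg_right _ (by positivity)
      simp only [add_re, ofReal_re, add_im, ofReal_im, mul_re, mul_im, I_re, I_im, re_ofNat,
        im_ofNat, mul_zero, mul_one, zero_mul, add_zero, zero_add, sub_zero]
      have h3 := tele2 (t - 4 ^ k) (2 ^ k)
      set s := t - 4 ^ k with hs
      have s0 : 0 ≤ s := by linarith
      have s1 : s ≤ 1 := by linarith
      set A := ∏ n ∈ range (2 ^ k), (s ^ 2 + (2 + ((n:ℝ) + 1)) ^ 2)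
      set B := ∏ n ∈ range (2 ^ k), (s ^ 2 + ((n:ℝ) + 1) ^ 2)
      have A0 : 0 ≤ A := prod_nonneg fun _ _ => by positivity
      have B0 : 0 ≤ B := prod_nonneg fun _ _ => by positivity
      have e : (4:ℝ) ^ k = ((2 ^ k : ℕ) : ℝ) ^ 2 := by
        push_cast; rw [← pow_mul, mul_comm, pow_mul]; norm_num
      set L : ℝ := ((2 ^ k : ℕ) : ℝ)
      have L0 : 0 < L := by positivity
      rw [e, div_pow, div_mul_eq_mul_div, le_div_iff₀ (by positivity)]
      have h4 : (s ^ 2 + 1) * (s ^ 2 + 4) ≤ 4 ^ 2 := by nlinarith [mul_le_one₀ s1 s0 s1]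
      have h5 : (L ^ 2) ^ 2 ≤ (s ^ 2 + (L + 1) ^ 2) * (s ^ 2 + (L + 2) ^ 2) := by
        rw [sq (L ^ 2)]
        gcongr <;> nlinarith
      calc B * (L ^ 2) ^ 2 ≤ _ := mul_le_mul_of_nonneg_left h5 B0
        _ = _ := h3.symm
        _ ≤ A * 4 ^ 2 := mul_le_mul_of_nonneg_left h4 A0
        _ = _ := mul_comm _ _
    · rw [one_mul]; exact c_mono k _ _ (by simp) (by simp)
  · filter_upwards [eventually_gt_atTop j] with K hK
    rw [prod_ite_eq', if_pos (mem_range.2 hK)]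

noncomputable def E (z : ℂ) : ℂ := (z + I) * F z

lemma zi (z : ℂ) (hz : 0 ≤ z.im) : 1 ≤ ‖z + I‖ := by
  have := im_le_norm (z + I)
  simp at this
  linarith

lemma E_ne (z : ℂ) (hz : 0 ≤ z.im) : E z ≠ 0 :=
  mul_ne_zero (norm_pos_iff.1 (by linarith [zi z hz])) (F_ne z hz)

lemma E_diff : Differentiable ℂ E := by
  have := F_diff
  unfold E; fun_prop

lemma E_ge (z : ℂ) (hz : 0 ≤ z.im) : ‖F z‖ ≤ ‖E z‖ := by
  rw [E, norm_mul]
  exact le_mul_of_one_le_left (norm_nonneg _) (zi z hz)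

lemma E_hb (z : ℂ) (hz : 0 < z.im) : ‖E (starRingEnd ℂ z)‖ < ‖E z‖ := by
  rw [E, E, norm_mul, norm_mul]
  have h1 : ‖starRingEnd ℂ z + I‖ < ‖z + I‖ := by
    refine lt_of_pow_lt_pow_left₀ 2 (norm_nonneg _) ?_
    rw [Complex.sq_norm, Complex.sq_norm, normSq_apply, normSq_apply]
    simp
    nlinarith
  exact (mul_le_mul_of_nonneg_left (F_conj z hz.le) (norm_nonneg _)).trans_lt
    (mul_lt_mul_of_pos_right h1 (norm_pos_iff.2 (F_ne z hz.le)))

lemma E_exp (z : ℂ) : ‖E z‖ ≤ 1 * Real.exp (3 * ‖z‖) := by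
  rw [E, norm_mul, one_mul, show 3 * ‖z‖ = ‖z‖ + 2 * ‖z‖ by ring, Real.exp_add]
  refine mul_le_mul ?_ (F_exp z) (norm_nonneg _) (by positivity)
  refine (norm_add_le _ _).trans ?_
  rw [norm_I]
  exact Real.add_one_le_exp _

lemma E_shift (x : ℝ) : ∃ C : ℝ, ∀ t : ℝ, ‖E (t + x) / E t‖ ≤ C := by
  refine ⟨(1 + |x|) * Real.exp (3 * (4 * |x| + 4 * x ^ 2)), fun t => ?_⟩
  rw [norm_div, div_le_iff₀ (norm_pos_iff.2 (E_ne _ (by simp))), E, E, norm_mul, norm_mul,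
    mul_mul_mul_comm]
  refine mul_le_mul ?_ (F_shift t x) (norm_nonneg _) (by positivity)
  rw [add_right_comm]
  refine (norm_add_le _ _).trans ?_
  have := zi t (by simp)
  rw [norm_real, Real.norm_eq_abs]
  nlinarith [abs_nonneg x]

lemma F_int : MeasureTheory.Integrable fun t : ℝ => ‖F t / E t‖ ^ 2 := by
  have : (fun t : ℝ => ‖F t / E t‖ ^ 2) = fun t : ℝ => (1 + t ^ 2)⁻¹ := by
    funext t
    rw [E, mul_comm, div_mul_cancel_left₀ (F_ne _ (by simp)), norm_inv, inv_pow, Complex.sq_norm,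
      normSq_apply]
    simp
    ring
  rw [this]
  exact integrable_inv_one_add_sq

lemma F_nint : ¬ MeasureTheory.Integrable fun t : ℝ => ‖F (t + 2 * I) / E t‖ ^ 2 := by
  intro h
  have h1 := h.measure_norm_ge_lt_top (ε := 1 / 80) (by norm_num)
  have h2 : (⋃ k : ℕ, Set.Ico ((4:ℝ) ^ k) (4 ^ k + 1)) ⊆
      {t : ℝ | 1 / 80 ≤ ‖‖F (t + 2 * I) / E t‖ ^ 2‖} := by
    intro t ht
    obtain ⟨k, h3, h4⟩ := Set.mem_iUnion.1 ht
    have h5 := F_up k t h3 h4.le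
    have h6 : (1:ℝ) ≤ 4 ^ k := one_le_pow₀ (by norm_num)
    have h7 : ‖(t:ℂ) + I‖ ^ 2 ≤ 5 * (4 ^ k) ^ 2 := by
      rw [Complex.sq_norm, normSq_apply]
      simp
      nlinarith
    have h8 := norm_pos_iff.2 (E_ne t (by simp))
    rw [Set.mem_ofPred_eq, Real.norm_of_nonneg (by positivity), norm_div, div_pow,
      le_div_iff₀ (by positivity), E, norm_mul, mul_pow]
    rw [div_mul_eq_mul_div, le_div_iff₀ (by positivity)] at h5
    have h9 := pow_le_pow_left₀ (by positivity) h5 2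
    have h10 := mul_le_mul_of_nonneg_right h7 (sq_nonneg ‖F t‖)
    nlinarith
  have h3 := (MeasureTheory.measure_mono h2).trans_lt h1
  rw [MeasureTheory.measure_iUnion ?_ fun _ => measurableSet_Ico] at h3
  · simp at h3
  · rw [pairwise_disjoint_on]
    intro m n hmn
    rw [Set.Ico_disjoint_Ico]
    have h4 : (4:ℝ) ^ (m + 1) ≤ 4 ^ n := pow_le_pow_right₀ (by norm_num) hmn
    have h6 : (1:ℝ) ≤ 4 ^ m := one_le_pow₀ (by norm_num)
    rw [pow_succ] at h4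
    exact (min_le_left _ _).trans (le_trans (by linarith) (le_max_right _ _))

end Pool.Agent.H.MP_060e4f_an
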